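import Pool.Agent.Y572.CL.Main

set_option autoImplicit false

/-!
# MP_174cbb_lc: linear intervals without coatoms above every small set of operations

Let `κ` be an infinite regular cardinal (ZFC only). Every set of at most `κ` operations on a set of
size `κ` is contained in a clone `C ≠ 𝒪` such that the interval `[C, 𝒪]` is a chain and every set
of at most `κ` members of `[C, 𝒪)` has a strict upper bound in `[C, 𝒪)`.
-/

namespace Pool.Agent.Results.MP_174cbb_lc.LinearIntervals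

open Set Pool.Agent.Results.MP_174cbb_lc.Regular

universe u

theorem result (X : Type u) (hX : (Cardinal.mk X).IsRegular) :
    ¬ DuallyAtomic X ∧
    ∀ S : Set (Oper X), Cardinal.mk S ≤ Cardinal.mk X →
      ∃ C : Set (Oper X), IsClone C ∧ S ⊆ C ∧ C ≠ univ ∧
        (∀ M N : Set (Oper X), IsClone M → IsClone N → C ⊆ M → C ⊆ N → M ⊆ N ∨ N ⊆ M) ∧
        ∀ 𝓕 : Set (Set (Oper X)), Cardinal.mk 𝓕 ≤ Cardinal.mk X →
          (∀ M ∈ 𝓕, IsClone M ∧ C ⊆ M ∧ M ≠ univ) →
          ∃ N : Set (Oper X), IsClone N ∧ C ⊆ N ∧ N ≠ univ ∧ ∀ M ∈ 𝓕, M ⊂ N :=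
  ⟨Pool.Agent.Y572.CL.main' X hX, fun S hS => Pool.Agent.Y572.CL.main X hX S hS⟩

end Pool.Agent.Results.MP_174cbb_lc.LinearIntervals
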